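import Pool.Agent.H31.SX.TargetsD
import Pool.Agent.H31.SW.TargetsG
import Pool.Agent.H29.THC.DFV

/-!
# (DY) sums of negative powers with the greatest common divisors (MP_52e316_nt)
-/

set_option autoImplicit false

open NumberField NumberField.InfinitePlace NumberField.Units
  NumberField.Units.dirichletUnitTheorem MeasureTheory Set Filter Complex
open scoped nonZeroDivisors ENNReal

namespace Pool.Agent.H4.SWX

open Pool.Agent.H25.HK Pool.Agent.H23.LB Pool.Agent.H23.LC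
open Pool.Agent.H28.RC (Rep ft idl)
open Pool.Agent.H29.DW (dg Rl lf wv Pos Wg cpar Ci om zs rv)
open Pool.Agent.H29.TC (dvs)
open Pool.Agent.H31.SW Pool.Agent.H31.SX

section NF

variable {K : Type} [Field K] [NumberField K]

private theorem dd_mul (j : Ideal (𝓞 K)) (M : FI K) (y : InfinitePlace K → ℝ) :
    DD ((j : FI K) * M) y = DD M y / Nf K j := by
  unfold DD Nf
  rw [map_mul, FractionalIdeal.coeIdeal_absNorm]
  push_cast
  rw [div_div, mul_comm]

private theorem nf_pos {j : Ideal (𝓞 K)} (h : j ≠ ⊥) : 0 < Nf K j := by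
  unfold Nf
  have : Ideal.absNorm j ≠ 0 := fun h0 => h (Ideal.absNorm_eq_zero_iff.1 h0)
  exact_mod_cast Nat.pos_of_ne_zero this

private theorem nf_le {i j : Ideal (𝓞 K)} (h : i ≤ j) (hi : i ≠ ⊥) : Nf K j ≤ Nf K i := by
  unfold Nf
  have h0 : Ideal.absNorm i ≠ 0 := fun h0 => hi (Ideal.absNorm_eq_zero_iff.1 h0)
  exact_mod_cast Nat.le_of_dvd (Nat.pos_of_ne_zero h0) (Ideal.absNorm_dvd_absNorm_of_le h)

private theorem nf_mul (i j : Ideal (𝓞 K)) : Nf K (i * j) = Nf K i * Nf K j := by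
  unfold Nf
  rw [map_mul]
  push_cast
  rfl

private theorem mem_mono {i j : Ideal (𝓞 K)} (h : i ≤ j) {L : FI K} {x : K}
    (hx : x ∈ (i : FI K) * L) : x ∈ (j : FI K) * L := by
  have h1 : (i : FI K) * L ≤ (j : FI K) * L :=
    mul_le_mul_left ((FractionalIdeal.coeIdeal_le_coeIdeal K).2 h) L
  exact h1 hx

private theorem mem_inf {i j : Ideal (𝓞 K)} {L : FI K} {x : K}
    (hx : x ∈ (i : FI K) * L) (hx' : x ∈ (j : FI K) * L) :
    x ∈ ((i ⊓ j : Ideal (𝓞 K)) : FI K) * L := by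
  rw [FractionalIdeal.coeIdeal_inf, FractionalIdeal.inf_mul]
  exact ⟨hx, hx'⟩

end NF

/-- DY -/
theorem pf_DY (hDV : X_DV) (hDY : Pool.Agent.H31.SW.W_DY) : X_DY := by
  classical
  intro n hn
  obtain ⟨C1, hC1, h1⟩ := hDV n hn
  obtain ⟨C2, hC2, h2⟩ := hDY n hn
  refine ⟨C2 * C1, one_le_mul_of_one_le_of_one_le hC2 hC1, ?_⟩
  intro K _ _ hK L y ω R k r κ X E hL hω hR hkr hκ hX
  set j : Ideal (𝓞 K) := κ ⊔ k with hj
  have hkj : k ≤ j := le_sup_right
  have hκj : κ ≤ j := le_sup_left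
  have hjb : j ≠ ⊥ := fun h => hκ (le_bot_iff.1 (h ▸ hκj))
  have hEk : ∀ x ∈ X, k ≤ E x := fun x hx => (hX x hx).2.2.2.le
  have hEj : ∀ x ∈ X, E x ≤ j := fun x hx =>
    (hX x hx).2.2.2.min j hkj (mem_mono hκj (hX x hx).1)
  have hmaps : ∀ x ∈ X, E x ∈ (dvs K k).filter (fun e => e ≤ j) := by
    intro x hx
    rw [Finset.mem_filter]
    exact ⟨(Pool.Agent.H29.THC.pf_DF K k hkr.k_ne (E x)).2 (hEk x hx), hEj x hx⟩
  rw [← Finset.sum_fiberwise_of_maps_to hmaps]
  have hPP : 0 < PP R := by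
    unfold PP
    exact Finset.prod_pos fun v _ => pow_pos (hR v) _
  have hDD : 0 < DD L y := by
    unfold DD
    refine div_pos (Real.exp_pos _) ?_
    have h3 : (FractionalIdeal.absNorm L) ≠ 0 := FractionalIdeal.absNorm_eq_zero_iff.not.2 hL
    have h4 : 0 ≤ FractionalIdeal.absNorm L := FractionalIdeal.absNorm_nonneg L
    exact_mod_cast lt_of_le_of_ne h4 (Ne.symm h3)
  have hNj := nf_pos hjb
  have hNκ := nf_pos hκ
  have key : ∀ e ∈ (dvs K k).filter (fun e => e ≤ j),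
      ∑ x ∈ X.filter (fun x => E x = e),
        (∏ v : InfinitePlace K, (‖wv v x y ω‖ / R v) ^ (-(v.mult : ℝ) / 2)) *
          Real.sqrt (Nf K (E x)) ≤
      C2 * (DD L y * PP R) * (Nf K j / Nf K κ) * (Real.sqrt (Nf K e))⁻¹ := by
    intro e he
    rw [Finset.mem_filter] at he
    have hke : k ≤ e := (Pool.Agent.H29.THC.pf_DF K k hkr.k_ne e).1 he.1
    have hej : e ≤ j := he.2
    have hjeq : κ ⊔ e = j :=
      le_antisymm (sup_le hκj hej) (sup_le le_sup_left (hke.trans le_sup_right))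
    have heb : e ≠ ⊥ := fun h => hkr.k_ne (le_bot_iff.1 (h ▸ hke))
    have hNe := nf_pos heb
    have hprod : Nf K j * Nf K (κ ⊓ e) = Nf K κ * Nf K e := by
      rw [← nf_mul, ← nf_mul, ← hjeq, Ideal.sup_mul_inf]
    have hNi : Nf K (κ ⊓ e) = Nf K κ * Nf K e / Nf K j := by
      rw [← hprod]
      field_simp
    have hib : κ ⊓ e ≠ ⊥ := by
      intro h
      have h5 := Ideal.sup_mul_inf κ e
      rw [h, Ideal.mul_bot] at h5
      rcases Ideal.mul_eq_bot.1 h5.symm with h6 | h6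
      · exact hκ h6
      · exact heb h6
    have h3 := h2 K hK (((κ ⊓ e : Ideal (𝓞 K)) : FI K) * L) y ω R (X.filter (fun x => E x = e))
      (mul_ne_zero (FractionalIdeal.coeIdeal_ne_zero.2 hib) hL) hω hR (by
        intro x hx
        rw [Finset.mem_filter] at hx
        obtain ⟨hx1, hx2, hx3, hx4⟩ := hX x hx.1
        refine ⟨mem_inf hx1 ?_, hx2, hx3⟩
        have := hx4.mem
        rwa [hx.2] at this)
    rw [dd_mul, hNi] at h3
    have h4 : ∑ x ∈ X.filter (fun x => E x = e),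
        (∏ v : InfinitePlace K, (‖wv v x y ω‖ / R v) ^ (-(v.mult : ℝ) / 2)) *
          Real.sqrt (Nf K (E x)) =
        (∑ x ∈ X.filter (fun x => E x = e),
          ∏ v : InfinitePlace K, (‖wv v x y ω‖ / R v) ^ (-(v.mult : ℝ) / 2)) *
          Real.sqrt (Nf K e) := by
      rw [Finset.sum_mul]
      refine Finset.sum_congr rfl fun x hx => ?_
      rw [(Finset.mem_filter.1 hx).2]
    rw [h4]
    have hs : 0 < Real.sqrt (Nf K e) := Real.sqrt_pos.2 hNe
    have hss : Real.sqrt (Nf K e) * Real.sqrt (Nf K e) = Nf K e := Real.mul_self_sqrt hNe.le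
    have hgoal : ∀ s N : ℝ, 0 < s → s * s = N →
        C2 * (DD L y / (Nf K κ * N / Nf K j) * PP R) * s =
          C2 * (DD L y * PP R) * (Nf K j / Nf K κ) * s⁻¹ := by
      intro s N hs h
      subst h
      field_simp
    exact (mul_le_mul_of_nonneg_right h3 hs.le).trans (le_of_eq (hgoal _ _ hs hss))
  refine (Finset.sum_le_sum key).trans ?_
  rw [← Finset.mul_sum]
  have h5 := h1 K hK k r j hkr hkj
  have hA : 0 ≤ C2 * (DD L y * PP R) * (Nf K j / Nf K κ) := by positivity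
  refine (mul_le_mul_of_nonneg_left h5 hA).trans ?_
  have hsj : 0 < Real.sqrt (Nf K j) := Real.sqrt_pos.2 hNj
  have hsκ : 0 < Real.sqrt (Nf K κ) := Real.sqrt_pos.2 hNκ
  have hNr := nf_pos hkr.r_ne
  have h6 : Nf K j / Nf K κ * (Real.sqrt (Nf K j))⁻¹ ≤ (Real.sqrt (Nf K κ))⁻¹ := by
    have h7 : Nf K j / Nf K κ * (Real.sqrt (Nf K j))⁻¹ = Real.sqrt (Nf K j) / Nf K κ := by
      have : Real.sqrt (Nf K j) * Real.sqrt (Nf K j) = Nf K j := Real.mul_self_sqrt hNj.le
      field_simp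
      nlinarith
    rw [h7, div_le_iff₀ hNκ]
    have h8 : Real.sqrt (Nf K κ) * Real.sqrt (Nf K κ) = Nf K κ := Real.mul_self_sqrt hNκ.le
    have h9 : (Real.sqrt (Nf K κ))⁻¹ * Nf K κ = Real.sqrt (Nf K κ) := by
      field_simp
      nlinarith
    rw [h9]
    exact Real.sqrt_le_sqrt (nf_le hκj hκ)
  have h10 : C2 * (DD L y * PP R) * (Nf K j / Nf K κ) * (C1 * Nf K r * (Real.sqrt (Nf K j))⁻¹) =
      (C2 * C1 * Nf K r * (DD L y * PP R)) * (Nf K j / Nf K κ * (Real.sqrt (Nf K j))⁻¹) := by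
    ring
  rw [h10, div_eq_mul_inv]
  exact mul_le_mul_of_nonneg_left h6 (by positivity)

end Pool.Agent.H4.SWX
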